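import Pool.Agent.E8helper61.SI.Stm2

set_option autoImplicit false

/-!
# Pieces STRUCT and CAND of project SI2
-/

open Finset

namespace Pool.Agent.E8helper91.SI

open Pool.Agent.E8helper61.SI

theorem struct : StructStatement := by
  intro n r g m
  induction m with
  | zero =>
    intro x U h
    exact absurd trivial h
  | succ m ih =>
    intro x U h
    by_cases hall : ∀ S : Finset (Fin n), Ind r x S → (S \ U).card < g
    · exact ⟨U, Subset.refl _, Nat.le_add_right _ _, hall⟩
    · push Not at hall
      obtain ⟨S, hS, hg⟩ := hall
      have h2 : ¬ Chain r g x m (U ∪ S) := fun hc => h ⟨S, hS, hg, hc⟩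
      obtain ⟨U', h3, h4, h5⟩ := ih x (U ∪ S) h2
      refine ⟨U', subset_union_left.trans h3, ?_, h5⟩
      have h6 := card_union_le U S
      have h7 : S.card = r := hS.1
      have h8 : (m + 1) * r = m * r + r := by ring
      omega

open Classical in
theorem cand : CandStatement := by
  intro n r g U
  have hB : (((univ : Finset (Finset (Fin n))).filter (fun T => T.card < g)).card) ≤ Bs n g := by
    have h2 : (univ : Finset (Finset (Fin n))).filter (fun T => T.card < g) ⊆
        (range (g + 1)).biUnion (fun i => (univ : Finset (Fin n)).powersetCard i) := by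
      intro T hT
      rw [mem_filter] at hT
      rw [mem_biUnion]
      exact ⟨T.card, mem_range.2 (by omega), mem_powersetCard.2 ⟨subset_univ _, rfl⟩⟩
    refine (card_le_card h2).trans (card_biUnion_le.trans (le_of_eq ?_))
    unfold Bs
    refine sum_congr rfl fun i _ => ?_
    rw [card_powersetCard, card_univ, Fintype.card_fin]
  have h1 : ((univ : Finset (Finset (Fin n))).filter
      (fun R => R.card = r ∧ (R \ U).card < g)).card ≤
      (U.powerset ×ˢ ((univ : Finset (Finset (Fin n))).filter (fun T => T.card < g))).card := by
    apply card_le_card_of_injOn (fun R => (R ∩ U, R \ U))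
    · intro R hR
      rw [Finset.mem_coe, mem_filter] at hR
      rw [Finset.mem_coe, mem_product]
      exact ⟨mem_powerset.2 inter_subset_right, mem_filter.2 ⟨mem_univ _, hR.2.2⟩⟩
    · intro R _ R' _ h
      have e1 : R ∩ U = R' ∩ U := congrArg Prod.fst h
      have e2 : R \ U = R' \ U := congrArg Prod.snd h
      rw [← Finset.sdiff_union_inter R U, ← Finset.sdiff_union_inter R' U, e1, e2]
  rw [card_product, card_powerset] at h1
  exact h1.trans (Nat.mul_le_mul_left _ hB)

end Pool.Agent.E8helper91.SI
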